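import Pool.Agent.W2helper33.OnnD

/-!
Transfer to the rings `ℤ_p` and the contradiction with polynomial dimension functions
(used for MP_7ed69f_al).
-/

set_option autoImplicit false
set_option linter.unusedSectionVars false

namespace Pool.Agent.W2helper33.Onn

open Matrix

/-- The set of dimensions in the question, for `N = 3`, `r = 2`. -/
def DimSet (R : Type) [CommRing R] [IsDomain R] [IsDiscreteValuationRing R] : Set ℤ :=
  {z : ℤ | ∃ (V : Type) (_ : AddCommGroup V) (_ : Module ℂ V)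
        (ρ : Representation ℂ
          (Matrix.GeneralLinearGroup (Fin 3) (R ⧸ IsLocalRing.maximalIdeal R ^ 2)) V),
        FiniteDimensional ℂ V ∧ Nontrivial V ∧
        (∀ W : Submodule ℂ V, (∀ g v, v ∈ W → ρ g v ∈ W) → W = ⊥ ∨ W = ⊤) ∧
        (∃ g : Matrix.GeneralLinearGroup (Fin 3) (R ⧸ IsLocalRing.maximalIdeal R ^ 2),
          (∀ i j, ∃ a ∈ IsLocalRing.maximalIdeal R ^ (2 - 1),
            g.val i j
              - (1 : Matrix (Fin 3) (Fin 3) (R ⧸ IsLocalRing.maximalIdeal R ^ 2)) i j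
              = Ideal.Quotient.mk (IsLocalRing.maximalIdeal R ^ 2) a) ∧ ρ g ≠ 1) ∧
        (Module.finrank ℂ V : ℤ) = z}

section Padic

variable (p : ℕ) [hp : Fact p.Prime]

theorem card_residue : Nat.card (IsLocalRing.ResidueField ℤ_[p]) = p := by
  rw [Nat.card_congr (PadicInt.residueField (p := p)).toEquiv, Nat.card_zmod]

instance finite_residue : Finite (IsLocalRing.ResidueField ℤ_[p]) :=
  Finite.of_equiv (ZMod p) (PadicInt.residueField (p := p)).symm.toEquiv

theorem ker_eq : IsLocalRing.maximalIdeal ℤ_[p] ^ 2 =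
    RingHom.ker (PadicInt.toZModPow 2 : ℤ_[p] →+* ZMod (p ^ 2)) := by
  rw [PadicInt.ker_toZModPow, PadicInt.maximalIdeal_eq_span_p, Ideal.span_singleton_pow]

/-- the isomorphism of `ℤ_p / p²` with `Z / p²` -/
noncomputable def eqv : (ℤ_[p] ⧸ IsLocalRing.maximalIdeal ℤ_[p] ^ 2) ≃+* ZMod (p ^ 2) :=
  (Ideal.quotEquivOfEq (ker_eq p)).trans
    (RingHom.quotientKerEquivOfSurjective (ZMod.ringHom_surjective (PadicInt.toZModPow 2)))

theorem eqv_mk (a : ℤ_[p]) :
    eqv p (Ideal.Quotient.mk _ a) = PadicInt.toZModPow 2 a := rfl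

/-- the isomorphism of the matrix groups -/
noncomputable def geqv : GL (Fin 3) (ℤ_[p] ⧸ IsLocalRing.maximalIdeal ℤ_[p] ^ 2) ≃*
    GL (Fin 3) (ZMod (p ^ 2)) :=
  Units.mapEquiv (eqv p).mapMatrix.toMulEquiv

theorem geqv_val (g : GL (Fin 3) (ℤ_[p] ⧸ IsLocalRing.maximalIdeal ℤ_[p] ^ 2)) (i j : Fin 3) :
    (geqv p g).val i j = eqv p (g.val i j) := rfl

theorem mem_dimSet (hp2 : p ≠ 2) :
    ((p ^ 3 * (p + 1) * (p ^ 2 + p + 1) : ℕ) : ℤ) ∈ DimSet ℤ_[p] := by
  obtain ⟨V, i1, i2, ρ, h1, h2, h3, ⟨g, hg, hg1⟩, h5⟩ := exists_rep_odd p hp2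
  refine ⟨V, i1, i2, ρ.comp (geqv p).toMonoidHom, h1, h2, ?_, ?_, ?_⟩
  · intro W hW
    apply h3 W
    intro g v hv
    have := hW ((geqv p).symm g) v hv
    simpa using this
  · refine ⟨(geqv p).symm g, ?_, ?_⟩
    · intro i j
      rw [mem_KK] at hg
      obtain ⟨y, hy⟩ := exists_of_rd p _ (hg i j)
      obtain ⟨y', hy'⟩ := ZMod.ringHom_surjective (PadicInt.toZModPow (p := p) 2) y
      refine ⟨p * y', ?_, ?_⟩
      · have : (2 : ℕ) - 1 = 1 := rfl
        rw [this, pow_one, PadicInt.maximalIdeal_eq_span_p]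
        exact Ideal.mul_mem_right _ _ (Ideal.mem_span_singleton_self _)
      · apply (eqv p).injective
        rw [eqv_mk, map_sub, map_mul, hy', map_natCast, ← hy, ← geqv_val, MulEquiv.apply_symm_apply]
        congr 1
        by_cases hij : i = j
        · subst hij; simp
        · simp [Matrix.one_apply_ne hij]
    · simpa using hg1
  · rw [h5]

theorem not_mem_dimSet : (168 : ℤ) ∉ DimSet ℤ_[2] := by
  rintro ⟨V, i1, i2, ρ, h1, h2, h3, -, h5⟩
  refine no_rep_two V (ρ.comp (geqv 2).symm.toMonoidHom) ?_ (by exact_mod_cast h5)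
  intro W hW
  apply h3 W
  intro g v hv
  have := hW (geqv 2 g) v hv
  simpa using this

end Padic

/-- There is no finite set of polynomials with integer coefficients whose values at the residue
cardinality are the dimensions, for all compact discrete valuation rings. -/
theorem no_polynomials (P : Finset (Polynomial ℤ))
    (hP : ∀ (R : Type) [CommRing R] [IsDomain R] [IsDiscreteValuationRing R]
      [Finite (IsLocalRing.ResidueField R)]
      [IsAdicComplete (IsLocalRing.maximalIdeal R) R],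
      DimSet R = (fun d : Polynomial ℤ => d.eval (Nat.card (IsLocalRing.ResidueField R) : ℤ)) ''
        (P : Set (Polynomial ℤ))) : False := by
  classical
  -- the polynomial
  let D : Polynomial ℤ := Polynomial.X ^ 3 * (Polynomial.X + 1) * (Polynomial.X ^ 2 + Polynomial.X + 1)
  have hD : ∀ n : ℕ, D.eval (n : ℤ) = ((n ^ 3 * (n + 1) * (n ^ 2 + n + 1) : ℕ) : ℤ) := by
    intro n
    simp [D]
  have hodd : ∀ q : ℕ, q.Prime → q ≠ 2 → ∃ d ∈ P, d.eval (q : ℤ) = D.eval (q : ℤ) := by
    intro q hq hq2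
    have : Fact q.Prime := ⟨hq⟩
    have h1 := mem_dimSet q hq2
    rw [hP ℤ_[q], card_residue] at h1
    obtain ⟨d, hd, hd2⟩ := h1
    exact ⟨d, hd, by rw [hD]; exact hd2⟩
  have hDP : D ∈ P := by
    by_contra hcon
    -- the primes are covered by the finite sets of common values
    have hfin : (⋃ d ∈ P, {x : ℤ | (d - D).IsRoot x}).Finite := by
      apply Set.Finite.biUnion P.finite_toSet
      intro d hd
      have hne : d - D ≠ 0 := by
        intro h
        rw [sub_eq_zero] at h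
        exact hcon (h ▸ hd)
      exact Polynomial.finite_setOf_isRoot hne
    have hinf : {q : ℕ | q.Prime ∧ q ≠ 2}.Infinite := by
      have : {q : ℕ | q.Prime ∧ q ≠ 2} = {q : ℕ | q.Prime} \ {2} := by
        ext q; simp
      rw [this]
      exact Nat.infinite_setOf_prime.diff (Set.finite_singleton 2)
    have himg : ((fun q : ℕ => (q : ℤ)) '' {q : ℕ | q.Prime ∧ q ≠ 2}).Infinite :=
      hinf.image (Nat.cast_injective.injOn)
    apply himg
    apply hfin.subset
    rintro _ ⟨q, ⟨hq, hq2⟩, rfl⟩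
    obtain ⟨d, hd, hd2⟩ := hodd q hq hq2
    simp only [Set.mem_iUnion, Set.mem_setOf_eq, Polynomial.IsRoot.def, Polynomial.eval_sub]
    exact ⟨d, hd, by rw [hd2, sub_self]⟩
  have h2 : (168 : ℤ) ∈ DimSet ℤ_[2] := by
    rw [hP ℤ_[2], card_residue]
    refine ⟨D, hDP, ?_⟩
    change D.eval ((2 : ℕ) : ℤ) = 168
    rw [hD]
    norm_num
  exact not_mem_dimSet h2

end Pool.Agent.W2helper33.Onn
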