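import Mathlib

/-!
Two general facts on complex representations of finite groups, used for MP_7ed69f_al.

* `exists_irrep`: a linear character `χ` of a subgroup `S` containing a normal subgroup `K` such that
  `χ|K` is not fixed by any element outside `S` induces an irreducible representation.
* `no_irrep`: if `K` is a normal elementary abelian 2-subgroup such that every character of `K` is fixed by
  some element outside `K`, there is no irreducible representation of dimension `[G : K]`.
-/

set_option autoImplicit false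

namespace Pool.Agent.W2helper33.Onn

open scoped BigOperators

set_option linter.unusedSectionVars false

section Existence

variable {G : Type} [Group G] [Finite G]

/-- The space of the induced representation. -/
def indSpace (S : Subgroup G) (χ : S →* ℂˣ) : Submodule ℂ (G → ℂ) where
  carrier := {f | ∀ (g : G) (s : S), f (g * s) = ((χ s)⁻¹ : ℂˣ) * f g}
  zero_mem' := by intro g s; simp
  add_mem' := by
    intro a b ha hb g s
    simp only [Pi.add_apply, ha g s, hb g s]; ring
  smul_mem' := by
    intro c a ha g s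
    simp only [Pi.smul_apply, smul_eq_mul, ha g s]; ring

theorem mem_indSpace {S : Subgroup G} {χ : S →* ℂˣ} {f : G → ℂ} :
    f ∈ indSpace S χ ↔ ∀ (g : G) (s : S), f (g * s) = ((χ s)⁻¹ : ℂˣ) * f g := Iff.rfl

/-- The induced representation. -/
noncomputable def indRep (S : Subgroup G) (χ : S →* ℂˣ) : Representation ℂ G (indSpace S χ) where
  toFun h :=
    { toFun := fun f => ⟨fun g => f.1 (h⁻¹ * g), by
        intro g s
        have := f.2 (h⁻¹ * g) s
        rw [mul_assoc] at this
        exact this⟩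
      map_add' := fun a b => rfl
      map_smul' := fun c a => rfl }
  map_one' := by
    ext f g; simp
  map_mul' := by
    intro a b
    ext f g
    simp [mul_assoc]

@[simp] theorem indRep_apply (S : Subgroup G) (χ : S →* ℂˣ) (h : G) (f : indSpace S χ) (g : G) :
    (indRep S χ h f).1 g = f.1 (h⁻¹ * g) := rfl

/-- evaluation at the coset representatives -/
noncomputable def evalOut (S : Subgroup G) (χ : S →* ℂˣ) : indSpace S χ →ₗ[ℂ] (G ⧸ S → ℂ) where
  toFun f q := f.1 q.out
  map_add' _ _ := rfl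
  map_smul' _ _ := rfl

theorem out_inv_mul_mem (S : Subgroup G) (g : G) : ((g : G ⧸ S).out)⁻¹ * g ∈ S := by
  rw [← QuotientGroup.eq]
  exact Quotient.out_eq _

theorem evalOut_injective (S : Subgroup G) (χ : S →* ℂˣ) : Function.Injective (evalOut S χ) := by
  rw [← LinearMap.ker_eq_bot, LinearMap.ker_eq_bot']
  intro f hf
  apply Subtype.ext
  funext g
  have h1 := f.2 ((g : G ⧸ S).out) ⟨((g : G ⧸ S).out)⁻¹ * g, out_inv_mul_mem S g⟩
  simp only [mul_inv_cancel_left] at h1
  have h2 : f.1 ((g : G ⧸ S).out) = 0 := congrFun hf (g : G ⧸ S)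
  rw [h1, h2]
  simp

theorem evalOut_surjective (S : Subgroup G) (χ : S →* ℂˣ) : Function.Surjective (evalOut S χ) := by
  intro F
  refine ⟨⟨fun g => ((χ ⟨((g : G ⧸ S).out)⁻¹ * g, out_inv_mul_mem S g⟩)⁻¹ : ℂˣ) * F (g : G ⧸ S), ?_⟩, ?_⟩
  · intro g s
    have hq : ((g * s : G) : G ⧸ S) = (g : G ⧸ S) := by
      rw [QuotientGroup.eq]
      simp
    have h2 : (⟨(((g * s : G) : G ⧸ S).out)⁻¹ * (g * s), out_inv_mul_mem S (g * s)⟩ : S) =
        ⟨((g : G ⧸ S).out)⁻¹ * g, out_inv_mul_mem S g⟩ * s := by
      apply Subtype.ext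
      simp only [Subgroup.coe_mul]
      rw [hq, mul_assoc]
    change ((χ ⟨(((g * s : G) : G ⧸ S).out)⁻¹ * (g * s), out_inv_mul_mem S (g * s)⟩)⁻¹ : ℂˣ) *
      F ((g * s : G) : G ⧸ S) = ((χ s)⁻¹ : ℂˣ) *
        (((χ ⟨((g : G ⧸ S).out)⁻¹ * g, out_inv_mul_mem S g⟩)⁻¹ : ℂˣ) * F (g : G ⧸ S))
    rw [h2, hq, map_mul, mul_inv]
    push_cast
    ring
  · funext q
    have hq : ((q.out : G) : G ⧸ S) = q := Quotient.out_eq _
    change ((χ ⟨(((q.out : G) : G ⧸ S).out)⁻¹ * q.out, out_inv_mul_mem S q.out⟩)⁻¹ : ℂˣ) *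
      F ((q.out : G) : G ⧸ S) = F q
    have h2 : (⟨(((q.out : G) : G ⧸ S).out)⁻¹ * q.out, out_inv_mul_mem S q.out⟩ : S) = 1 := by
      apply Subtype.ext
      simp only [hq, Subgroup.coe_one, inv_mul_cancel]
    rw [h2, hq]
    simp

theorem finrank_indSpace (S : Subgroup G) (χ : S →* ℂˣ) :
    Module.finrank ℂ (indSpace S χ) = S.index := by
  have e := LinearEquiv.ofBijective (evalOut S χ) ⟨evalOut_injective S χ, evalOut_surjective S χ⟩
  rw [e.finrank_eq]
  have : Fintype (G ⧸ S) := Fintype.ofFinite _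
  rw [Module.finrank_fintype_fun_eq_card, Subgroup.index, Nat.card_eq_fintype_card]

/-- **Existence.** -/
theorem exists_irrep (S K : Subgroup G) [hK : K.Normal] (hKS : K ≤ S) (χ : S →* ℂˣ)
    (hχ : ∀ g : G, g ∉ S → ∃ (k : G) (hk : k ∈ K),
      χ ⟨k, hKS hk⟩ ≠ χ ⟨g⁻¹ * k * g, hKS (by simpa using hK.conj_mem k hk g⁻¹)⟩) :
    ∃ (V : Type) (_ : AddCommGroup V) (_ : Module ℂ V) (ρ : Representation ℂ G V),
      FiniteDimensional ℂ V ∧ Nontrivial V ∧
      (∀ W : Submodule ℂ V, (∀ g v, v ∈ W → ρ g v ∈ W) → W = ⊥ ∨ W = ⊤) ∧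
      (∀ k : K, χ ⟨k, hKS k.2⟩ ≠ 1 → ρ k ≠ 1) ∧ Module.finrank ℂ V = S.index := by
  classical
  have : Fintype G := Fintype.ofFinite G
  have : Fintype K := Fintype.ofFinite K
  have hconj : ∀ (g : G) (k : K), g⁻¹ * k * g ∈ S := fun g k =>
    hKS (by simpa using hK.conj_mem k k.2 g⁻¹)
  -- the characters of `K` attached to `g`
  let μ : G → K →* ℂˣ := fun g =>
    { toFun := fun k => χ ⟨g⁻¹ * k * g, hconj g k⟩
      map_one' := by
        have : (⟨g⁻¹ * (1 : K) * g, hconj g 1⟩ : S) = 1 := by
          apply Subtype.ext; simp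
        rw [this, map_one]
      map_mul' := by
        intro a b
        rw [← map_mul]
        congr 1
        apply Subtype.ext
        simp [mul_assoc] }
  have hμ : ∀ g k, μ g k = χ ⟨g⁻¹ * k * g, hconj g k⟩ := fun _ _ => rfl
  have hact : ∀ (k : K) (f : indSpace S χ) (g : G), (indRep S χ k f).1 g = (μ g k : ℂ) * f.1 g := by
    intro k f g
    rw [indRep_apply, hμ]
    have h1 := f.2 g ⟨g⁻¹ * (k⁻¹ : K) * g, hconj g k⁻¹⟩
    have h2 : (g * (g⁻¹ * ((k⁻¹ : K) : G) * g)) = (k : G)⁻¹ * g := by
      simp [mul_assoc]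
    simp only [h2] at h1
    rw [h1]
    congr 2
    rw [← map_inv]
    congr 1
    apply Subtype.ext
    simp [mul_assoc]
  have hne : ∀ g x : G, g⁻¹ * x ∉ S → μ g ≠ μ x := by
    intro g x hgx heq
    obtain ⟨k, hk, hne⟩ := hχ _ hgx
    apply hne
    have hk' : g * k * g⁻¹ ∈ K := hK.conj_mem k hk g
    have := DFunLike.congr_fun heq ⟨g * k * g⁻¹, hk'⟩
    rw [hμ, hμ] at this
    convert this using 2
    · apply Subtype.ext
      simp [mul_assoc]
    · apply Subtype.ext
      simp [mul_assoc]
  have heqS : ∀ (f : indSpace S χ) (g x : G) (h : g⁻¹ * x ∈ S), μ g = μ x := by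
    intro f g x h
    ext k
    rw [hμ, hμ]
    have h1 : (⟨x⁻¹ * k * x, hconj x k⟩ : S) = ⟨g⁻¹ * x, h⟩⁻¹ * ⟨g⁻¹ * k * g, hconj g k⟩ * ⟨g⁻¹ * x, h⟩ := by
      apply Subtype.ext
      simp [mul_assoc]
    rw [h1, map_mul, map_mul, map_inv, mul_comm (χ _)⁻¹, inv_mul_cancel_right]
  -- the basic functions
  have key : ∀ (W : Submodule ℂ (indSpace S χ)), (∀ g v, v ∈ W → indRep S χ g v ∈ W) → W ≠ ⊥ →
      W = ⊤ := by
    intro W hW hbot
    obtain ⟨f, hfW, hf0⟩ := Submodule.exists_mem_ne_zero_of_ne_bot hbot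
    have : ∃ g, f.1 g ≠ 0 := by
      by_contra hcon
      push Not at hcon
      exact hf0 (Subtype.ext (funext hcon))
    obtain ⟨g, hg⟩ := this
    -- projection to the coset `g S`
    let P : (indSpace S χ) → (indSpace S χ) := fun f =>
      ∑ k : K, ((μ g k)⁻¹ : ℂˣ) • indRep S χ k f
    have hPmem : P f ∈ W := by
      apply Submodule.sum_mem
      intro k _
      exact W.smul_mem (((μ g k)⁻¹ : ℂˣ) : ℂ) (hW _ _ hfW)
    have hPval : ∀ x, (P f).1 x = if g⁻¹ * x ∈ S then (Fintype.card K : ℂ) * f.1 x else 0 := by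
      intro x
      have h1 : (P f).1 x = ∑ k : K, (((μ g k)⁻¹ * μ x k : ℂˣ) : ℂ) * f.1 x := by
        simp only [P]
        rw [Submodule.coe_sum, Finset.sum_apply]
        apply Finset.sum_congr rfl
        intro k _
        have : (((μ g k)⁻¹ : ℂˣ) • indRep S χ k f : indSpace S χ).1 x =
            (((μ g k)⁻¹ : ℂˣ) : ℂ) * (indRep S χ k f).1 x := rfl
        rw [this, hact]
        push_cast
        ring
      rw [h1, ← Finset.sum_mul]
      split_ifs with h
      · have h2 := heqS f g x h
        rw [h2]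
        simp
      · have h2 : (∑ k : K, (((μ g k)⁻¹ * μ x k : ℂˣ) : ℂ)) = 0 := by
          let ν : K →* ℂ := (Units.coeHom ℂ).comp ((μ g)⁻¹ * μ x)
          have hν : ν ≠ 1 := by
            intro hcon
            apply hne g x h
            ext k
            have := DFunLike.congr_fun hcon k
            simp only [ν, MonoidHom.comp_apply, MonoidHom.mul_apply, MonoidHom.inv_apply,
              Units.coeHom_apply, MonoidHom.one_apply] at this
            have h3 : (μ g k)⁻¹ * μ x k = 1 := by
              apply Units.ext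
              simpa using this
            have h4 : μ x k = μ g k := by
              rw [inv_mul_eq_one] at h3
              exact h3.symm
            rw [h4]
          exact sum_hom_units_eq_zero ν hν
        rw [h2, zero_mul]
    have hcard : (Fintype.card K : ℂ) ≠ 0 := by
      exact_mod_cast Fintype.card_ne_zero
    rw [eq_top_iff]
    intro F _
    -- `F` is a combination of translates of `P f`
    have hF : F = ∑ q : G ⧸ S, ((F.1 q.out) * ((Fintype.card K : ℂ) * f.1 g)⁻¹) •
        indRep S χ (q.out * g⁻¹) (P f) := by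
      apply Subtype.ext
      funext x
      rw [Submodule.coe_sum, Finset.sum_apply]
      have hterm : ∀ q : G ⧸ S, (((F.1 q.out) * ((Fintype.card K : ℂ) * f.1 g)⁻¹) •
          indRep S χ (q.out * g⁻¹) (P f) : indSpace S χ).1 x =
          if q = (x : G ⧸ S) then F.1 x else 0 := by
        intro q
        have h1 : (((F.1 q.out) * ((Fintype.card K : ℂ) * f.1 g)⁻¹) •
          indRep S χ (q.out * g⁻¹) (P f) : indSpace S χ).1 x =
          ((F.1 q.out) * ((Fintype.card K : ℂ) * f.1 g)⁻¹) *
            (P f).1 ((q.out * g⁻¹)⁻¹ * x) := rfl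
        rw [h1, hPval]
        have h2 : g⁻¹ * ((q.out * g⁻¹)⁻¹ * x) = q.out⁻¹ * x := by simp [mul_assoc]
        rw [h2]
        have h3 : q.out⁻¹ * x ∈ S ↔ q = (x : G ⧸ S) := by
          rw [← QuotientGroup.eq]
          constructor
          · intro h
            rw [← h]
            exact (Quotient.out_eq q).symm
          · intro h
            rw [← h]
            exact Quotient.out_eq q
        by_cases hq : q = (x : G ⧸ S)
        · rw [if_pos (h3.2 hq), if_pos hq]
          have hs := h3.2 hq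
          have h4 := f.2 g ⟨q.out⁻¹ * x, hs⟩
          have h5 := F.2 q.out ⟨q.out⁻¹ * x, hs⟩
          simp only [mul_inv_cancel_left] at h5
          have h6 : (q.out * g⁻¹)⁻¹ * x = g * (q.out⁻¹ * x) := by simp [mul_assoc]
          rw [h6]
          simp only at h4
          rw [h4, h5]
          field_simp
        · rw [if_neg (fun h => hq (h3.1 h)), if_neg hq, mul_zero]
      simp only [hterm]
      simp
    rw [hF]
    apply Submodule.sum_mem
    intro q _
    exact W.smul_mem _ (hW _ _ hPmem)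
  have hfin : FiniteDimensional ℂ (indSpace S χ) := inferInstance
  have hrank := finrank_indSpace S χ
  refine ⟨indSpace S χ, inferInstance, inferInstance, indRep S χ, hfin, ?_, ?_, ?_, hrank⟩
  · apply Module.nontrivial_of_finrank_pos (R := ℂ)
    rw [hrank]
    exact Nat.pos_of_ne_zero Subgroup.index_ne_zero_of_finite
  · intro W hW
    by_cases h : W = ⊥
    · exact Or.inl h
    · exact Or.inr (key W hW h)
  · intro k hk hcon
    apply hk
    -- evaluate at a function nonzero at 1
    obtain ⟨f, hf⟩ := evalOut_surjective S χ (fun _ => 1)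
    have h1 : f.1 ((1 : G) : G ⧸ S).out = 1 := congrFun hf _
    have h2 : f.1 1 ≠ 0 := by
      intro h0
      have hs : ((1 : G) : G ⧸ S).out ∈ S := by
        have := out_inv_mul_mem S 1
        simpa using S.inv_mem this
      have := f.2 1 ⟨_, hs⟩
      rw [one_mul, h1, h0] at this
      simp at this
    have h3 := hact k f 1
    rw [hcon] at h3
    have h4 : f.1 1 = (μ 1 k : ℂ) * f.1 1 := h3
    have h5 : (μ 1 k : ℂ) = 1 := by
      have := mul_right_cancel₀ h2 ((one_mul (f.1 1)).trans h4)
      exact this.symm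
    have h6 : μ 1 k = χ ⟨k, hKS k.2⟩ := by
      rw [hμ]
      congr 1
      apply Subtype.ext
      simp
    rw [← h6]
    exact Units.ext h5

end Existence

section Nonexistence

variable {G : Type} [Group G] [Finite G]

/-- A common eigenvector for commuting involutions. -/
theorem exists_eigenvector (K : Subgroup G) (hK2 : ∀ k ∈ K, k * k = 1)
    {V : Type} [AddCommGroup V] [Module ℂ V] (ρ : Representation ℂ G V) [Nontrivial V] :
    ∃ v : V, v ≠ 0 ∧ ∀ k ∈ K, ρ k v = v ∨ ρ k v = -v := by
  classical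
  have : Fintype G := Fintype.ofFinite G
  have hcomm : ∀ a ∈ K, ∀ b ∈ K, a * b = b * a := by
    intro a ha b hb
    have h1 := hK2 (a * b) (K.mul_mem ha hb)
    have h2 := hK2 a ha
    have h3 := hK2 b hb
    calc a * b = (a * b) * 1 * 1 := by simp
      _ = (a * b) * (b * b) * (a * a) := by rw [h2, h3]
      _ = a * (b * b) * (b * a) * a := by simp only [mul_assoc]
      _ = (a * b) * (b * (b * a)) * a := by simp only [mul_assoc]
      _ = b * a := by
        have h4 : a * b * (b * (b * a)) * a = a * (b * b) * b * (a * a) := by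
          simp only [mul_assoc]
        rw [h4, h3, h2]
        simp only [mul_one]
        have h5 : a * b = (a * b)⁻¹ := eq_inv_of_mul_eq_one_left h1
        rw [h5, mul_inv_rev, inv_eq_of_mul_eq_one_left h2, inv_eq_of_mul_eq_one_left h3]
  have main : ∀ s : Finset G, (∀ k ∈ s, k ∈ K) →
      ∃ v : V, v ≠ 0 ∧ ∀ k ∈ s, ρ k v = v ∨ ρ k v = -v := by
    intro s
    induction s using Finset.induction_on with
    | empty =>
      intro _
      obtain ⟨v, hv⟩ := exists_ne (0 : V)
      exact ⟨v, hv, by simp⟩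
    | insert a s ha ih =>
      intro hs
      obtain ⟨v, hv, hvs⟩ := ih (fun k hk => hs k (Finset.mem_insert_of_mem hk))
      have haK : a ∈ K := hs a (Finset.mem_insert_self a s)
      have haa : ρ a (ρ a v) = v := by
        rw [← Module.End.mul_apply, ← map_mul, hK2 a haK, map_one]; rfl
      have hsw : ∀ k ∈ s, ρ k (ρ a v) = ρ a v ∨ ρ k (ρ a v) = -ρ a v := by
        intro k hk
        have hkK : k ∈ K := hs k (Finset.mem_insert_of_mem hk)
        have h1 : ρ k (ρ a v) = ρ a (ρ k v) := by
          rw [← Module.End.mul_apply, ← Module.End.mul_apply, ← map_mul, ← map_mul,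
            hcomm k hkK a haK]
        rw [h1]
        rcases hvs k hk with h | h
        · left; rw [h]
        · right; rw [h, map_neg]
      by_cases h0 : v + ρ a v = 0
      · refine ⟨v, hv, ?_⟩
        intro k hk
        rcases Finset.mem_insert.1 hk with h | h
        · subst h
          right
          exact (neg_eq_of_add_eq_zero_right h0).symm
        · exact hvs k h
      · refine ⟨v + ρ a v, h0, ?_⟩
        intro k hk
        rcases Finset.mem_insert.1 hk with h | h
        · subst h
          left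
          rw [map_add, haa, add_comm]
        · have hkK : k ∈ K := hs k hk
          have h1 : ρ k (ρ a v) = ρ a (ρ k v) := by
            rw [← Module.End.mul_apply, ← Module.End.mul_apply, ← map_mul, ← map_mul,
              hcomm k hkK a haK]
          rcases hvs k h with h2 | h2
          · left; rw [map_add, h1, h2]
          · right; rw [map_add, h1, h2, map_neg, neg_add]
  obtain ⟨v, hv, h⟩ := main (Finset.univ.filter (fun k => k ∈ K)) (by simp)
  exact ⟨v, hv, fun k hk => h k (by simp [hk])⟩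

/-- **Non-existence.** -/
theorem no_irrep (K : Subgroup G) [hK : K.Normal] (hK2 : ∀ k ∈ K, k * k = 1)
    (hz : ∀ ψ : K →* ℂˣ, ∃ z : G, z ∉ K ∧ ∀ k : K,
      ψ ⟨z⁻¹ * k * z, by simpa using hK.conj_mem k k.2 z⁻¹⟩ = ψ k)
    (V : Type) [AddCommGroup V] [Module ℂ V] [FiniteDimensional ℂ V] [Nontrivial V]
    (ρ : Representation ℂ G V)
    (hirr : ∀ W : Submodule ℂ V, (∀ g v, v ∈ W → ρ g v ∈ W) → W = ⊥ ∨ W = ⊤)
    (hdim : Module.finrank ℂ V = K.index) : False := by
  classical
  have : Fintype G := Fintype.ofFinite G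
  have : Fintype (G ⧸ K) := Fintype.ofFinite _
  obtain ⟨v, hv, hvK⟩ := exists_eigenvector K hK2 ρ
  have hmul : ∀ (a b : G) (x : V), ρ (a * b) x = ρ a (ρ b x) := by
    intro a b x; rw [map_mul]; rfl
  have hone : ∀ x : V, ρ 1 x = x := by intro x; rw [map_one]; rfl
  have hnegne : v ≠ -v := by
    intro h
    have : (2 : ℂ) • v = 0 := by
      rw [two_smul]
      nth_rewrite 2 [h]
      simp
    exact hv ((smul_eq_zero.1 this).resolve_left two_ne_zero)
  -- the character
  have hval : ∀ k : K, ∃ c : ℂˣ, ρ (k : G) v = (c : ℂ) • v := by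
    intro k
    rcases hvK k k.2 with h | h
    · exact ⟨1, by simp [h]⟩
    · exact ⟨-1, by simp [h]⟩
  choose c hc using hval
  have hcinj : ∀ a b : ℂ, a • v = b • v → a = b := by
    intro a b h
    have : (a - b) • v = 0 := by rw [sub_smul, h, sub_self]
    exact sub_eq_zero.1 ((smul_eq_zero.1 this).resolve_right hv)
  let ψ : K →* ℂˣ :=
    { toFun := c
      map_one' := by
        apply Units.ext
        apply hcinj
        rw [← hc 1]
        simp [hone]
      map_mul' := by
        intro a b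
        apply Units.ext
        apply hcinj
        rw [← hc (a * b), Subgroup.coe_mul, hmul, hc b, map_smul, hc a, smul_smul]
        push_cast
        rw [mul_comm] }
  obtain ⟨z, hzK, hzψ⟩ := hz ψ
  have hψ : ∀ k : K, ρ (k : G) v = (ψ k : ℂ) • v := hc
  -- `ρ z v` is an eigenvector with the same character
  have hzv : ∀ k : K, ρ (k : G) (ρ z v) = (ψ k : ℂ) • ρ z v := by
    intro k
    have hmem : z⁻¹ * k * z ∈ K := by simpa using hK.conj_mem k k.2 z⁻¹
    have h1 : (k : G) * z = z * (z⁻¹ * k * z) := by simp [mul_assoc]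
    rw [← hmul, h1, hmul, hψ ⟨_, hmem⟩, map_smul, hzψ k]
  -- spanning family
  have hspan : ∀ w : V, (∀ k : K, ρ (k : G) w = (ψ k : ℂ) • w) → w ≠ 0 →
      ⊤ ≤ Submodule.span ℂ (Set.range (fun q : G ⧸ K => ρ q.out w)) := by
    intro w hw hw0
    have hmemg : ∀ g : G, ρ g w ∈ Submodule.span ℂ (Set.range (fun q : G ⧸ K => ρ q.out w)) := by
      intro g
      have h1 : g = (g : G ⧸ K).out * ((g : G ⧸ K).out⁻¹ * g) := by simp
      have h2 := out_inv_mul_mem K g
      rw [h1, hmul, hw ⟨_, h2⟩, map_smul]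
      exact Submodule.smul_mem _ _ (Submodule.subset_span ⟨_, rfl⟩)
    have hstab : ∀ g x, x ∈ Submodule.span ℂ (Set.range (fun q : G ⧸ K => ρ q.out w)) →
        ρ g x ∈ Submodule.span ℂ (Set.range (fun q : G ⧸ K => ρ q.out w)) := by
      intro g x hx
      induction hx using Submodule.span_induction with
      | mem x hx =>
        obtain ⟨q, rfl⟩ := hx
        simp only
        rw [← hmul]
        exact hmemg _
      | zero => simp
      | add x y _ _ hx hy => rw [map_add]; exact Submodule.add_mem _ hx hy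
      | smul a x _ hx => rw [map_smul]; exact Submodule.smul_mem _ _ hx
    rcases hirr _ hstab with h | h
    · exfalso
      have := hmemg 1
      rw [h, Submodule.mem_bot, hone] at this
      exact hw0 this
    · exact h.ge
  have hcard : Fintype.card (G ⧸ K) = Module.finrank ℂ V := by
    rw [hdim, Subgroup.index, Nat.card_eq_fintype_card]
  have hli : LinearIndependent ℂ (fun q : G ⧸ K => ρ q.out v) :=
    linearIndependent_of_top_le_span_of_card_eq_finrank (hspan v hψ hv) hcard
  let b : Module.Basis (G ⧸ K) ℂ V := Module.Basis.mk hli (hspan v hψ hv)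
  have hb : ∀ q, b q = ρ q.out v := fun q => by simp [b]
  let T : V →ₗ[ℂ] V := b.constr ℂ (fun q => ρ q.out (ρ z v))
  have hTb : ∀ q : G ⧸ K, T (ρ q.out v) = ρ q.out (ρ z v) := by
    intro q
    rw [← hb, Module.Basis.constr_basis]
  have hTqk : ∀ q k : G, k ∈ K → T (ρ q v) = ρ q (ρ z v) →
      T (ρ (q * k) v) = ρ (q * k) (ρ z v) := by
    intro q k hk h
    rw [hmul, hmul, hψ ⟨k, hk⟩, hzv ⟨k, hk⟩, map_smul, map_smul, map_smul, h]
  have hTg : ∀ g : G, T (ρ g v) = ρ g (ρ z v) := by
    intro g
    have h1 : g = (g : G ⧸ K).out * ((g : G ⧸ K).out⁻¹ * g) := by simp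
    have h2 := hTqk (g : G ⧸ K).out _ (out_inv_mul_mem K g) (hTb _)
    rwa [← h1] at h2
  have hTcomm : ∀ (g : G) (x : V), T (ρ g x) = ρ g (T x) := by
    intro g x
    have : T ∘ₗ (ρ g) = (ρ g) ∘ₗ T := by
      apply b.ext
      intro q
      simp only [LinearMap.comp_apply, hb]
      rw [← hmul, hTg, hTb, hmul]
    exact LinearMap.congr_fun this x
  obtain ⟨a, ha⟩ := Module.End.exists_eigenvalue T
  have heig : Module.End.eigenspace T a = ⊤ := by
    rcases hirr (Module.End.eigenspace T a) (by
      intro g x hx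
      rw [Module.End.mem_eigenspace_iff] at hx ⊢
      rw [hTcomm, hx, map_smul]) with h | h
    · exact absurd h ha
    · exact h
  have hTv : ρ z v = a • v := by
    have h1 : v ∈ Module.End.eigenspace T a := by rw [heig]; trivial
    rw [Module.End.mem_eigenspace_iff] at h1
    have h2 := hTg 1
    rw [hone, hone] at h2
    rw [← h2, h1]
  -- contradiction with linear independence
  have hq : ((1 : G) : G ⧸ K) ≠ (z : G ⧸ K) := by
    intro h
    rw [QuotientGroup.eq] at h
    simp at h
    exact hzK h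
  have e1 : ∃ c1 : ℂ, ρ ((1 : G) : G ⧸ K).out v = c1 • v := by
    have h2 : ((1 : G) : G ⧸ K).out ∈ K := by
      have := out_inv_mul_mem K (1 : G)
      simpa using K.inv_mem this
    exact ⟨_, hψ ⟨_, h2⟩⟩
  have e2 : ∃ c2 : ℂ, ρ (z : G ⧸ K).out v = c2 • v := by
    have h2 := K.inv_mem (out_inv_mul_mem K z)
    have h3 : (z : G ⧸ K).out = z * ((z : G ⧸ K).out⁻¹ * z)⁻¹ := by simp
    rw [h3, hmul, hψ ⟨_, h2⟩, map_smul, hTv, smul_smul]
    exact ⟨_, rfl⟩
  obtain ⟨c1, h1⟩ := e1
  obtain ⟨c2, h2⟩ := e2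
  have h3 : c2 • b ((1 : G) : G ⧸ K) = c1 • b (z : G ⧸ K) := by
    rw [hb, hb, h1, h2, smul_smul, smul_smul, mul_comm]
  have h4 := congrArg (fun x => b.repr x ((1 : G) : G ⧸ K)) h3
  simp only [map_smul, Finsupp.smul_apply, Module.Basis.repr_self, Finsupp.single_eq_same,
    smul_eq_mul, mul_one] at h4
  rw [Finsupp.single_eq_of_ne hq, mul_zero] at h4
  have h5 := b.ne_zero (z : G ⧸ K)
  rw [hb, h2, h4, zero_smul] at h5
  exact h5 rfl

end Nonexistence

end Pool.Agent.W2helper33.Onn
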