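import Mathlib

/-!
Every 3 by 3 matrix over the field with two elements commutes with an invertible matrix different
from the identity (used for MP_7ed69f_al).
-/

set_option autoImplicit false
set_option maxRecDepth 100000

namespace Pool.Agent.W2helper33.Onn

/-- matrix product over the two element field, entries as Booleans -/
def bmul (A B : Fin 3 → Fin 3 → Bool) (i j : Fin 3) : Bool :=
  xor (xor (A i 0 && B 0 j) (A i 1 && B 1 j)) (A i 2 && B 2 j)

/-- the matrix with the given entries -/
def bmk (a b c d e f g h k : Bool) : Fin 3 → Fin 3 → Bool :=
  fun i j => match i, j with
  | 0, 0 => a | 0, 1 => b | 0, 2 => c
  | 1, 0 => d | 1, 1 => e | 1, 2 => f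
  | 2, 0 => g | 2, 1 => h | 2, 2 => k

/-- the determinant -/
def bdet (z : Fin 3 → Fin 3 → Bool) : Bool :=
  xor (xor (xor (z 0 0 && (z 1 1 && z 2 2)) (z 0 0 && (z 1 2 && z 2 1)))
    (xor (z 0 1 && (z 1 0 && z 2 2)) (z 0 1 && (z 1 2 && z 2 0))))
    (xor (z 0 2 && (z 1 0 && z 2 1)) (z 0 2 && (z 1 1 && z 2 0)))

/-- the identity -/
def bone : Fin 3 → Fin 3 → Bool := fun i j => i == j

/-- evaluate a matrix to its table of entries -/
def bnorm (z : Fin 3 → Fin 3 → Bool) : Fin 3 → Fin 3 → Bool :=
  bmk (z 0 0) (z 0 1) (z 0 2) (z 1 0) (z 1 1) (z 1 2) (z 2 0) (z 2 1) (z 2 2)

/-- equality test -/
def beqm (A B : Fin 3 → Fin 3 → Bool) : Bool :=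
  (A 0 0 == B 0 0) && ((A 0 1 == B 0 1) && ((A 0 2 == B 0 2) && ((A 1 0 == B 1 0) &&
  ((A 1 1 == B 1 1) && ((A 1 2 == B 1 2) && ((A 2 0 == B 2 0) && ((A 2 1 == B 2 1) &&
  (A 2 2 == B 2 2))))))))

/-- the test -/
def btest (B z : Fin 3 → Fin 3 → Bool) : Bool :=
  (!(beqm z bone)) && (bdet z && beqm (bmul z B) (bmul B z))

/-- the candidates: polynomials in `B` and transvections -/
def bcand (B : Fin 3 → Fin 3 → Bool) : List (Fin 3 → Fin 3 → Bool) :=
  [ B, (fun i j => xor (bone i j) (B i j)), (fun i j => xor (xor (bone i j) (B i j)) (bmul B B i j)),
    bmk true false false false true false false true true,
    bmk true false false false true false true false true,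
    bmk true false false false true false true true true,
    bmk true false false false true true false false true,
    bmk true false false true true false false false true,
    bmk true false false true true true false false true,
    bmk true false false false false true false true false,
    bmk true false false true true false true false true,
    bmk true false false true false true true true false,
    bmk true false true false true false false false true,
    bmk true true false false true false false false true,
    bmk true true true false true false false false true,
    bmk true true false false true false false true true,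
    bmk false false true false true false true false false,
    bmk false true true false true false true true false,
    bmk true false true false true true false false true,
    bmk false true false true false false false false true,
    bmk false true true true false true false false true,
    bmk true true true false false true false true false,
    bmk false false true true true true true false false,
    bmk false true false true false false true true true ]

theorem bkey : ∀ a b c d e f g h k : Bool,
    (bcand (bmk a b c d e f g h k)).any (btest (bmk a b c d e f g h k)) = true := by
  decide

end Pool.Agent.W2helper33.Onn
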