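import Pool.Agent.W2helper33.OnnA
import Pool.Agent.W2helper33.OnnK

/-!
The group `GL_3(Z/p²)`: reduction modulo `p`, its kernel `K`, and the characters of `K`
(used for MP_7ed69f_al).
-/

set_option autoImplicit false
set_option linter.unusedSectionVars false

namespace Pool.Agent.W2helper33.Onn

open Matrix

section Basic

variable (p : ℕ) [hp : Fact p.Prime]

/-- reduction modulo `p` -/
noncomputable def rd : ZMod (p ^ 2) →+* ZMod p := ZMod.castHom (dvd_pow_self p two_ne_zero) (ZMod p)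

theorem rd_surj : Function.Surjective (rd p) := ZMod.ringHom_surjective _

instance : NeZero (p ^ 2) := ⟨pow_ne_zero 2 hp.out.ne_zero⟩

theorem pp : (p : ZMod (p ^ 2)) * p = 0 := by
  have : ((p ^ 2 : ℕ) : ZMod (p ^ 2)) = 0 := ZMod.natCast_self _
  rw [← Nat.cast_mul, ← sq]; exact this

theorem rd_natCast (n : ℕ) : rd p n = n := map_natCast _ n

theorem rd_eq_zero_iff (x : ZMod (p ^ 2)) : rd p x = 0 ↔ (p : ZMod (p ^ 2)) * x = 0 := by
  have hx : x = ((x.val : ℕ) : ZMod (p ^ 2)) := (ZMod.natCast_zmod_val x).symm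
  rw [hx, rd_natCast, ← Nat.cast_mul, ZMod.natCast_eq_zero_iff, ZMod.natCast_eq_zero_iff]
  generalize x.val = n
  rw [sq, Nat.mul_dvd_mul_iff_left hp.out.pos]

theorem exists_of_rd (x : ZMod (p ^ 2)) (h : rd p x = 0) : ∃ y, x = p * y := by
  have hx : x = ((x.val : ℕ) : ZMod (p ^ 2)) := (ZMod.natCast_zmod_val x).symm
  rw [hx, rd_natCast, ZMod.natCast_eq_zero_iff] at h
  obtain ⟨c, hc⟩ := h
  refine ⟨c, ?_⟩
  rw [hx, hc]
  push_cast
  rfl

theorem rd_p : rd p (p : ZMod (p ^ 2)) = 0 := by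
  rw [rd_natCast]; exact ZMod.natCast_self p

theorem isUnit_of_rd (x : ZMod (p ^ 2)) (h : rd p x ≠ 0) : IsUnit x := by
  have hx : x = ((x.val : ℕ) : ZMod (p ^ 2)) := (ZMod.natCast_zmod_val x).symm
  rw [hx, rd_natCast, Ne, ZMod.natCast_eq_zero_iff] at h
  rw [hx, ZMod.isUnit_iff_coprime]
  exact Nat.Coprime.pow_right 2 ((Nat.Prime.coprime_iff_not_dvd hp.out).2 h).symm

/-- reduction of invertible matrices -/
noncomputable def red : GL (Fin 3) (ZMod (p ^ 2)) →* GL (Fin 3) (ZMod p) :=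
  Matrix.GeneralLinearGroup.map (rd p)

theorem red_apply (g : GL (Fin 3) (ZMod (p ^ 2))) (i j : Fin 3) :
    (red p g).val i j = rd p (g.val i j) := rfl

theorem red_surj : Function.Surjective (red p) := by
  intro M
  choose f hf using rd_surj p
  let M' : Matrix (Fin 3) (Fin 3) (ZMod (p ^ 2)) := fun i j => f (M.val i j)
  have hM' : (rd p).mapMatrix M' = M.val := by
    ext i j
    exact hf _
  have hdet : IsUnit M'.det := by
    apply isUnit_of_rd
    rw [RingHom.map_det, hM']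
    have h1 : IsUnit M.val.det := (Matrix.isUnit_iff_isUnit_det _).1 M.isUnit
    exact h1.ne_zero
  have hunit : IsUnit M' := (Matrix.isUnit_iff_isUnit_det _).2 hdet
  refine ⟨hunit.unit, ?_⟩
  apply Units.ext
  ext i j
  rw [red_apply]
  exact congrFun (congrFun hM' i) j

/-- The kernel of reduction. -/
noncomputable def KK : Subgroup (GL (Fin 3) (ZMod (p ^ 2))) := (red p).ker

instance : (KK p).Normal := by unfold KK; infer_instance

theorem mem_KK {g : GL (Fin 3) (ZMod (p ^ 2))} :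
    g ∈ KK p ↔ ∀ i j, rd p (g.val i j - (1 : Matrix (Fin 3) (Fin 3) (ZMod (p ^ 2))) i j) = 0 := by
  unfold KK
  rw [MonoidHom.mem_ker]
  constructor
  · intro h i j
    rw [map_sub, ← red_apply, h]
    by_cases hij : i = j
    · subst hij; simp
    · simp [Matrix.one_apply_ne hij]
  · intro h
    apply Units.ext
    ext i j
    have := h i j
    rw [map_sub, sub_eq_zero] at this
    rw [red_apply, this]
    by_cases hij : i = j
    · subst hij; simp
    · simp [Matrix.one_apply_ne hij]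

/-- `1 + p X` -/
noncomputable def kap (X : Matrix (Fin 3) (Fin 3) (ZMod (p ^ 2))) : GL (Fin 3) (ZMod (p ^ 2)) where
  val := 1 + (p : ZMod (p ^ 2)) • X
  inv := 1 - (p : ZMod (p ^ 2)) • X
  val_inv := by
    have : ((p : ZMod (p ^ 2)) • X) * ((p : ZMod (p ^ 2)) • X) = 0 := by
      rw [smul_mul_smul_comm, pp, zero_smul]
    rw [mul_sub, mul_one, add_mul, one_mul, this]
    abel
  inv_val := by
    have : ((p : ZMod (p ^ 2)) • X) * ((p : ZMod (p ^ 2)) • X) = 0 := by
      rw [smul_mul_smul_comm, pp, zero_smul]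
    rw [sub_mul, one_mul, mul_add, mul_one, this]
    abel

theorem kap_val (X : Matrix (Fin 3) (Fin 3) (ZMod (p ^ 2))) :
    (kap p X).val = 1 + (p : ZMod (p ^ 2)) • X := rfl

theorem kap_mem (X : Matrix (Fin 3) (Fin 3) (ZMod (p ^ 2))) : kap p X ∈ KK p := by
  rw [mem_KK]
  intro i j
  rw [kap_val, Matrix.add_apply, add_sub_cancel_left, Matrix.smul_apply, smul_eq_mul, map_mul, rd_p,
    zero_mul]

theorem kap_add (X Y : Matrix (Fin 3) (Fin 3) (ZMod (p ^ 2))) :
    kap p (X + Y) = kap p X * kap p Y := by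
  apply Units.ext
  rw [Units.val_mul, kap_val, kap_val, kap_val]
  have : ((p : ZMod (p ^ 2)) • X) * ((p : ZMod (p ^ 2)) • Y) = 0 := by
    rw [smul_mul_smul_comm, pp, zero_smul]
  rw [mul_add, mul_one, add_mul, one_mul, this, smul_add]
  abel

theorem kap_conj (g : GL (Fin 3) (ZMod (p ^ 2))) (X : Matrix (Fin 3) (Fin 3) (ZMod (p ^ 2))) :
    g⁻¹ * kap p X * g = kap p (g⁻¹.val * X * g.val) := by
  apply Units.ext
  rw [Units.val_mul, Units.val_mul, kap_val, kap_val, mul_add, mul_one, add_mul, ← Units.val_mul,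
    inv_mul_cancel, Units.val_one, Matrix.mul_smul, Matrix.smul_mul]

theorem exists_kap (g : GL (Fin 3) (ZMod (p ^ 2))) (hg : g ∈ KK p) : ∃ X, g = kap p X := by
  rw [mem_KK] at hg
  choose X hX using fun i j => exists_of_rd p _ (hg i j)
  refine ⟨Matrix.of X, ?_⟩
  apply Units.ext
  ext i j
  rw [kap_val, Matrix.add_apply, Matrix.smul_apply, smul_eq_mul, Matrix.of_apply, ← hX i j]
  ring

theorem kap_eq_one (X : Matrix (Fin 3) (Fin 3) (ZMod (p ^ 2))) : kap p ((p : ZMod (p ^ 2)) • X) = 1 := by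
  apply Units.ext
  rw [kap_val, smul_smul, pp, zero_smul, add_zero, Units.val_one]

theorem index_KK : (KK p).index = ∏ i : Fin 3, (p ^ 3 - p ^ (i : ℕ)) := by
  unfold KK
  rw [Subgroup.index_ker, MonoidHom.range_eq_top.2 (red_surj p)]
  rw [Nat.card_congr (Subgroup.topEquiv (G := GL (Fin 3) (ZMod p))).toEquiv]
  have := Matrix.card_GL_field (𝔽 := ZMod p) 3
  rw [this, ZMod.card]

end Basic

end Pool.Agent.W2helper33.Onn
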