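import Pool.Agent.W2helper33.OnnB

/-!
For an odd prime `p` the group `GL_3(Z/p²)` has an irreducible representation of dimension
`p³ (p + 1) (p² + p + 1)` which is nontrivial on the kernel of reduction (used for MP_7ed69f_al).
-/

set_option autoImplicit false
set_option linter.unusedSectionVars false

namespace Pool.Agent.W2helper33.Onn

open Matrix

section Diag

variable (p : ℕ) [hp : Fact p.Prime]

/-- the diagonal matrices modulo `p` -/
noncomputable def dg : (Fin 3 → (ZMod p)ˣ) →* GL (Fin 3) (ZMod p) where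
  toFun d :=
    { val := Matrix.diagonal fun i => ((d i : (ZMod p)ˣ) : ZMod p)
      inv := Matrix.diagonal fun i => (((d i)⁻¹ : (ZMod p)ˣ) : ZMod p)
      val_inv := by
        rw [Matrix.diagonal_mul_diagonal, ← Matrix.diagonal_one]
        congr 1
        funext i
        exact Units.mul_inv (d i)
      inv_val := by
        rw [Matrix.diagonal_mul_diagonal, ← Matrix.diagonal_one]
        congr 1
        funext i
        exact Units.inv_mul (d i) }
  map_one' := by
    apply Units.ext
    exact Matrix.diagonal_one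
  map_mul' := by
    intro a b
    apply Units.ext
    exact (Matrix.diagonal_mul_diagonal _ _).symm

theorem dg_val (d : Fin 3 → (ZMod p)ˣ) (i j : Fin 3) :
    (dg p d).val i j = if i = j then ((d i : (ZMod p)ˣ) : ZMod p) else 0 := by
  change Matrix.diagonal (fun i => ((d i : (ZMod p)ˣ) : ZMod p)) i j = _
  rw [Matrix.diagonal_apply]

theorem dg_inj : Function.Injective (dg p) := by
  intro a b h
  funext i
  apply Units.ext
  have := congrArg (fun g : GL (Fin 3) (ZMod p) => g.val i i) h
  simpa [dg_val] using this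

theorem mem_range_dg {g : GL (Fin 3) (ZMod p)} :
    g ∈ (dg p).range ↔ ∀ i j, i ≠ j → g.val i j = 0 := by
  constructor
  · rintro ⟨d, rfl⟩ i j hij
    rw [dg_val, if_neg hij]
  · intro h
    have hdiag : g.val = Matrix.diagonal (fun i => g.val i i) := by
      ext i j
      rw [Matrix.diagonal_apply]
      split_ifs with hij
      · subst hij; rfl
      · exact h i j hij
    have hdet : g.val.det = ∏ i, g.val i i := by
      conv_lhs => rw [hdiag]
      rw [Matrix.det_diagonal]
    have hne : ∀ i, g.val i i ≠ 0 := by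
      intro i h0
      have h1 : IsUnit g.val.det := (Matrix.isUnit_iff_isUnit_det _).1 g.isUnit
      rw [hdet, Finset.prod_eq_zero (f := fun i => g.val i i) (Finset.mem_univ i) h0] at h1
      exact not_isUnit_zero h1
    refine ⟨fun i => Units.mk0 _ (hne i), ?_⟩
    apply Units.ext
    ext i j
    rw [dg_val]
    split_ifs with hij
    · subst hij; rfl
    · exact (h i j hij).symm

/-- matrices which are diagonal modulo `p` -/
noncomputable def SS : Subgroup (GL (Fin 3) (ZMod (p ^ 2))) := (dg p).range.comap (red p)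

theorem mem_SS {g : GL (Fin 3) (ZMod (p ^ 2))} :
    g ∈ SS p ↔ ∀ i j, i ≠ j → rd p (g.val i j) = 0 := by
  unfold SS
  rw [Subgroup.mem_comap, mem_range_dg]
  rfl

theorem KK_le_SS : KK p ≤ SS p := by
  intro g hg
  rw [mem_SS]
  rw [mem_KK] at hg
  intro i j hij
  have := hg i j
  rwa [Matrix.one_apply_ne hij, sub_zero] at this

theorem index_SS : (SS p).index = p ^ 3 * (p + 1) * (p ^ 2 + p + 1) := by
  have h0 : (SS p).index = (dg p).range.index := by
    unfold SS
    exact Subgroup.index_comap_of_surjective _ (red_surj p)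
  have h1 : Nat.card (dg p).range = (p - 1) ^ 3 := by
    rw [← Nat.card_congr (MonoidHom.ofInjective (dg_inj p)).toEquiv]
    rw [Nat.card_eq_fintype_card, Fintype.card_pi_const, ZMod.card_units]
  have h2 := Subgroup.card_mul_index (dg p).range
  have h3 := Matrix.card_GL_field (𝔽 := ZMod p) 3
  rw [ZMod.card] at h3
  rw [h1, h3, Fin.prod_univ_three] at h2
  rw [h0]
  have hp2 := hp.out.two_le
  obtain ⟨q, rfl⟩ : ∃ q, p = q + 1 := ⟨p - 1, by omega⟩
  have hq : 0 < q := by omega
  have e1 : (q + 1) ^ 3 - (q + 1) ^ ((0 : Fin 3) : ℕ) = q * (q ^ 2 + 3 * q + 3) := by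
    simp only [Fin.val_zero, pow_zero]
    apply Nat.sub_eq_of_eq_add
    ring
  have e2 : (q + 1) ^ 3 - (q + 1) ^ ((1 : Fin 3) : ℕ) = (q + 1) * (q * (q + 2)) := by
    simp only [Fin.val_one, pow_one]
    apply Nat.sub_eq_of_eq_add
    ring
  have e3 : (q + 1) ^ 3 - (q + 1) ^ ((2 : Fin 3) : ℕ) = (q + 1) ^ 2 * q := by
    simp only [Fin.val_two]
    apply Nat.sub_eq_of_eq_add
    ring
  rw [e1, e2, e3] at h2
  simp only [Nat.add_sub_cancel] at h2
  have hq3 : 0 < q ^ 3 := by positivity
  apply Nat.eq_of_mul_eq_mul_left hq3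
  rw [h2]
  ring

/-- the `i`-th diagonal entry is multiplicative on `SS` -/
noncomputable def diagHom (i : Fin 3) : SS p →* ZMod (p ^ 2) where
  toFun s := s.1.val i i
  map_one' := by simp
  map_mul' := by
    intro a b
    have ha := (mem_SS p).1 a.2
    have hb := (mem_SS p).1 b.2
    have h0 : ∀ j, j ≠ i → a.1.val i j * b.1.val j i = 0 := by
      intro j hj
      obtain ⟨x, hx⟩ := exists_of_rd p _ (ha i j (Ne.symm hj))
      obtain ⟨y, hy⟩ := exists_of_rd p _ (hb j i hj)
      rw [hx, hy, mul_mul_mul_comm, pp, zero_mul]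
    rw [Subgroup.coe_mul, Units.val_mul, Matrix.mul_apply]
    rw [Finset.sum_eq_single i]
    · intro j _ hj
      exact h0 j hj
    · intro h
      exact absurd (Finset.mem_univ i) h

theorem diagHom_apply (i : Fin 3) (s : SS p) : diagHom p i s = s.1.val i i := rfl

/-- the unit `1 + p a` -/
noncomputable def un (a : ZMod (p ^ 2)) : (ZMod (p ^ 2))ˣ where
  val := 1 + p * a
  inv := 1 - p * a
  val_inv := by
    have := pp p
    linear_combination (-a ^ 2) * this
  inv_val := by
    have := pp p
    linear_combination (-a ^ 2) * this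

theorem un_add (a b : ZMod (p ^ 2)) : un p (a + b) = un p a * un p b := by
  apply Units.ext
  have := pp p
  simp only [un, Units.val_mul]
  linear_combination (-a * b) * this

theorem un_zero : un p 0 = 1 := by
  apply Units.ext
  simp [un]

theorem un_natCast_mul (n : ℕ) (a : ZMod (p ^ 2)) :
    un p ((n : ZMod (p ^ 2)) * a) = un p a ^ n := by
  induction n with
  | zero => simp [un_zero]
  | succ n ih =>
    rw [Nat.cast_succ, add_mul, one_mul, un_add, ih]
    exact (pow_succ _ _).symm

theorem un_p_mul (a : ZMod (p ^ 2)) : un p ((p : ZMod (p ^ 2)) * a) = 1 := by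
  apply Units.ext
  have := pp p
  simp only [un, Units.val_one]
  linear_combination a * this

theorem un_one_ne : un p 1 ≠ 1 := by
  intro h
  have h1 := congrArg Units.val h
  simp only [un, Units.val_one, mul_one] at h1
  have h2 : (p : ZMod (p ^ 2)) = 0 := by simpa using h1
  rw [ZMod.natCast_eq_zero_iff] at h2
  have h3 := Nat.le_of_dvd hp.out.pos h2
  have h4 := hp.out.two_le
  nlinarith

theorem exists_eta : ∃ η : (ZMod (p ^ 2))ˣ →* ℂˣ, η (un p 1) ≠ 1 :=
  CommGroup.exists_apply_ne_one_of_hasEnoughRootsOfUnity _ _ (un_one_ne p)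

variable (η : (ZMod (p ^ 2))ˣ →* ℂˣ)

theorem eta_inj (hη : η (un p 1) ≠ 1) (a : ZMod (p ^ 2)) (ha : η (un p a) = 1) :
    (p : ZMod (p ^ 2)) * a = 0 := by
  by_contra hcon
  have hunit : IsUnit a := isUnit_of_rd p a (fun h => hcon ((rd_eq_zero_iff p a).1 h))
  obtain ⟨u, hu⟩ := hunit
  apply hη
  have h1 : (1 : ZMod (p ^ 2)) = (((u⁻¹ : (ZMod (p ^ 2))ˣ) : ZMod (p ^ 2)).val : ℕ) * a := by
    rw [ZMod.natCast_zmod_val, ← hu, Units.inv_mul]
  rw [h1, un_natCast_mul, map_pow, ha, one_pow]

/-- the linear character of `SS` -/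
noncomputable def chi : SS p →* ℂˣ :=
  (η.comp (diagHom p 1).toHomUnits) * (η.comp (diagHom p 2).toHomUnits) ^ 2

theorem toHomUnits_kap (i : Fin 3) (X : Matrix (Fin 3) (Fin 3) (ZMod (p ^ 2))) :
    (diagHom p i).toHomUnits ⟨kap p X, KK_le_SS p (kap_mem p X)⟩ = un p (X i i) := by
  apply Units.ext
  rw [MonoidHom.coe_toHomUnits, diagHom_apply, kap_val, Matrix.add_apply, Matrix.one_apply_eq,
    Matrix.smul_apply]
  rfl

/-- `diag(0, 1, 2)` -/
noncomputable def bet : Matrix (Fin 3) (Fin 3) (ZMod (p ^ 2)) :=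
  Matrix.diagonal (fun i => ((i : ℕ) : ZMod (p ^ 2)))

theorem chi_kap (X : Matrix (Fin 3) (Fin 3) (ZMod (p ^ 2))) :
    chi p η ⟨kap p X, KK_le_SS p (kap_mem p X)⟩ = η (un p ((bet p * X).trace)) := by
  unfold chi
  rw [MonoidHom.mul_apply, MonoidHom.pow_apply, MonoidHom.comp_apply, MonoidHom.comp_apply,
    toHomUnits_kap, toHomUnits_kap, ← map_pow, ← map_mul, ← un_natCast_mul, ← un_add]
  congr 2
  rw [Matrix.trace, Fin.sum_univ_three]
  simp [bet, Matrix.diag_apply, Matrix.diagonal_mul]

theorem exists_rep_odd (hp2 : p ≠ 2) :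
    ∃ (V : Type) (_ : AddCommGroup V) (_ : Module ℂ V)
      (ρ : Representation ℂ (GL (Fin 3) (ZMod (p ^ 2))) V),
      FiniteDimensional ℂ V ∧ Nontrivial V ∧
      (∀ W : Submodule ℂ V, (∀ g v, v ∈ W → ρ g v ∈ W) → W = ⊥ ∨ W = ⊤) ∧
      (∃ g ∈ KK p, ρ g ≠ 1) ∧
      Module.finrank ℂ V = p ^ 3 * (p + 1) * (p ^ 2 + p + 1) := by
  obtain ⟨η, hη⟩ := exists_eta p
  have hmain := exists_irrep (SS p) (KK p) (KK_le_SS p) (chi p η) (by
    intro g hg
    by_contra hcon
    push Not at hcon
    apply hg
    rw [mem_SS]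
    -- the matrix `M`
    have hconj : ∀ X, η (un p ((bet p * X).trace)) =
        η (un p ((bet p * (g⁻¹.val * X * g.val)).trace)) := by
      intro X
      have h1 := hcon (kap p X) (kap_mem p X)
      rw [chi_kap] at h1
      rw [h1, ← chi_kap]
      congr 1
      apply Subtype.ext
      exact kap_conj p g X
    have htr : ∀ X : Matrix (Fin 3) (Fin 3) (ZMod (p ^ 2)),
        (p : ZMod (p ^ 2)) * (((g.val * bet p * g⁻¹.val - bet p) * X).trace) = 0 := by
      intro X
      apply eta_inj p η hη
      have h2 : (bet p * (g⁻¹.val * X * g.val)).trace = (g.val * bet p * g⁻¹.val * X).trace := by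
        rw [← mul_assoc, ← mul_assoc, Matrix.trace_mul_comm, ← mul_assoc, ← mul_assoc]
      have h3 := hconj X
      rw [h2] at h3
      have h4 : (g.val * bet p * g⁻¹.val * X).trace =
          ((g.val * bet p * g⁻¹.val - bet p) * X).trace + (bet p * X).trace := by
        rw [sub_mul, Matrix.trace_sub]; ring
      rw [h4, un_add, map_mul] at h3
      exact right_eq_mul.1 h3
    have hM : ∀ i j, (p : ZMod (p ^ 2)) * ((g.val * bet p * g⁻¹.val - bet p) i j) = 0 := by
      intro i j
      have := htr (Matrix.single j i 1)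
      rwa [Matrix.trace_mul_single, op_smul_eq_mul, mul_one] at this
    have hM2 : (p : ZMod (p ^ 2)) • (g.val * bet p * g⁻¹.val - bet p) = 0 := by
      ext i j
      rw [Matrix.smul_apply, smul_eq_mul, hM]
      rfl
    have hM3 : (p : ZMod (p ^ 2)) • (g.val * bet p - bet p * g.val) = 0 := by
      have h5 : g.val * bet p - bet p * g.val = (g.val * bet p * g⁻¹.val - bet p) * g.val := by
        rw [sub_mul, mul_assoc (g.val * bet p), ← Units.val_mul, inv_mul_cancel, Units.val_one,
          mul_one]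
      rw [h5, ← Matrix.smul_mul, hM2, zero_mul]
    intro i j hij
    rw [rd_eq_zero_iff]
    have h6 := congrFun (congrFun hM3 i) j
    rw [Matrix.smul_apply, Matrix.sub_apply, smul_eq_mul] at h6
    unfold bet at h6
    rw [Matrix.mul_diagonal, Matrix.diagonal_mul, Matrix.zero_apply] at h6
    have h7 : ((p : ZMod (p ^ 2)) * g.val i j) * (((j : ℕ) : ZMod (p ^ 2)) - ((i : ℕ) : ZMod (p ^ 2)))
        = 0 := by
      rw [← h6]; ring
    have h8 : IsUnit (((j : ℕ) : ZMod (p ^ 2)) - ((i : ℕ) : ZMod (p ^ 2))) := by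
      apply isUnit_of_rd
      rw [map_sub, map_natCast, map_natCast, sub_ne_zero]
      intro h9
      have h10 := (ZMod.natCast_eq_natCast_iff' _ _ _).1 h9
      have hp3 : 3 ≤ p := by
        have := hp.out.two_le
        omega
      have hj := j.2
      have hi := i.2
      rw [Nat.mod_eq_of_lt (by omega), Nat.mod_eq_of_lt (by omega)] at h10
      exact hij (Fin.ext h10.symm)
    exact (h8.mul_left_eq_zero).1 h7)
  obtain ⟨V, i1, i2, ρ, h1, h2, h3, h4, h5⟩ := hmain
  refine ⟨V, i1, i2, ρ, h1, h2, h3, ?_, ?_⟩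
  · refine ⟨kap p (Matrix.single 1 1 1), kap_mem p _, ?_⟩
    apply h4 ⟨kap p (Matrix.single 1 1 1), kap_mem p _⟩
    rw [chi_kap]
    have : (bet p * Matrix.single 1 1 1).trace = 1 := by
      rw [Matrix.trace_mul_single]
      simp [bet]
    rw [this]
    exact hη
  · rw [h5, index_SS]

end Diag

end Pool.Agent.W2helper33.Onn
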