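import Pool.Agent.W2helper33.OnnC

/-!
The group `GL_3(Z/4)` has no irreducible representation of dimension `168` (used for MP_7ed69f_al).
-/

set_option autoImplicit false
set_option linter.unusedSectionVars false

namespace Pool.Agent.W2helper33.Onn

open Matrix

/-- Booleans to the field with two elements -/
def tz (b : Bool) : ZMod 2 := if b then 1 else 0

theorem tz_xor : ∀ a b : Bool, tz (xor a b) = tz a + tz b := by decide

theorem tz_and : ∀ a b : Bool, tz (a && b) = tz a * tz b := by decide

theorem tz_inj : ∀ a b : Bool, tz a = tz b → a = b := by decide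

theorem tz_surj : ∀ x : ZMod 2, ∃ b : Bool, tz b = x := by decide

/-- the matrix over the field with two elements -/
def tm (z : Fin 3 → Fin 3 → Bool) : Matrix (Fin 3) (Fin 3) (ZMod 2) := Matrix.of fun i j => tz (z i j)

theorem tm_apply (z : Fin 3 → Fin 3 → Bool) (i j : Fin 3) : tm z i j = tz (z i j) := rfl

theorem tm_mul (a b : Fin 3 → Fin 3 → Bool) : tm (bmul a b) = tm a * tm b := by
  ext i j
  rw [Matrix.mul_apply, Fin.sum_univ_three, tm_apply]
  simp only [bmul, tz_xor, tz_and, tm_apply]

theorem tm_one : tm bone = 1 := by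
  ext i j
  rw [tm_apply]
  fin_cases i <;> fin_cases j <;> rfl

theorem tm_det (z : Fin 3 → Fin 3 → Bool) : (tm z).det = tz (bdet z) := by
  rw [Matrix.det_fin_three]
  simp only [bdet, tz_xor, tz_and, tm_apply]
  have h2 : (2 : ZMod 2) = 0 := rfl
  have hs : ∀ x : ZMod 2, -x = x := by decide
  simp only [sub_eq_add_neg, hs]
  ring

theorem beqm_eq {a b : Fin 3 → Fin 3 → Bool} (h : beqm a b = true) : a = b := by
  unfold beqm at h
  simp only [Bool.and_eq_true, beq_iff_eq] at h
  obtain ⟨h0, h1, h2, h3, h4, h5, h6, h7, h8⟩ := h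
  funext i j
  fin_cases i <;> fin_cases j <;> assumption

theorem bmk_eta (z : Fin 3 → Fin 3 → Bool) :
    bmk (z 0 0) (z 0 1) (z 0 2) (z 1 0) (z 1 1) (z 1 2) (z 2 0) (z 2 1) (z 2 2) = z := by
  funext i j
  fin_cases i <;> fin_cases j <;> rfl

theorem tm_surj (B : Matrix (Fin 3) (Fin 3) (ZMod 2)) : ∃ b, tm b = B := by
  choose f hf using tz_surj
  refine ⟨fun i j => f (B i j), ?_⟩
  ext i j
  rw [tm_apply, hf]

theorem beqm_self (a : Fin 3 → Fin 3 → Bool) : beqm a a = true := by
  unfold beqm
  simp

/-- Every matrix over the field with two elements has a nontrivial centraliser. -/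
theorem exists_commuting (B : Matrix (Fin 3) (Fin 3) (ZMod 2)) :
    ∃ z : GL (Fin 3) (ZMod 2), z ≠ 1 ∧ z.val * B = B * z.val := by
  obtain ⟨b, rfl⟩ := tm_surj B
  have h := bkey (b 0 0) (b 0 1) (b 0 2) (b 1 0) (b 1 1) (b 1 2) (b 2 0) (b 2 1) (b 2 2)
  rw [bmk_eta, List.any_eq_true] at h
  obtain ⟨z, -, hz⟩ := h
  unfold btest at hz
  simp only [Bool.and_eq_true, Bool.not_eq_true'] at hz
  obtain ⟨h1, h2, h3⟩ := hz
  have hdet : IsUnit (tm z).det := by
    rw [tm_det, h2]
    exact isUnit_one
  have hunit : IsUnit (tm z) := (Matrix.isUnit_iff_isUnit_det _).2 hdet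
  refine ⟨hunit.unit, ?_, ?_⟩
  · intro hcon
    have h4 : tm z = 1 := congrArg Units.val hcon
    rw [← tm_one] at h4
    have h5 : z = bone := by
      funext i j
      exact tz_inj _ _ (congrFun (congrFun h4 i) j)
    rw [h5, beqm_self] at h1
    exact absurd h1 (by simp)
  · change tm z * tm b = tm b * tm z
    rw [← tm_mul, ← tm_mul, beqm_eq h3]

/-- `GL_3(Z/4)` has no irreducible representation of dimension 168. -/
theorem no_rep_two (V : Type) [AddCommGroup V] [Module ℂ V] [FiniteDimensional ℂ V] [Nontrivial V]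
    (ρ : Representation ℂ (GL (Fin 3) (ZMod (2 ^ 2))) V)
    (hirr : ∀ W : Submodule ℂ V, (∀ g v, v ∈ W → ρ g v ∈ W) → W = ⊥ ∨ W = ⊤)
    (hdim : Module.finrank ℂ V = 168) : False := by
  have hidx : (KK 2).index = 168 := by
    rw [index_KK, Fin.prod_univ_three]
    rfl
  apply no_irrep (KK 2) ?_ ?_ V ρ hirr (by rw [hdim, hidx])
  · intro k hk
    obtain ⟨X, rfl⟩ := exists_kap 2 k hk
    rw [← kap_add]
    have : X + X = ((2 : ℕ) : ZMod (2 ^ 2)) • X := by
      push_cast
      rw [two_smul]
    rw [this]
    exact kap_eq_one 2 X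
  · intro ψ
    -- the additive character of matrices
    let F : Matrix (Fin 3) (Fin 3) (ZMod (2 ^ 2)) → ℂˣ := fun X => ψ ⟨kap 2 X, kap_mem 2 X⟩
    have hFadd : ∀ X Y, F (X + Y) = F X * F Y := by
      intro X Y
      simp only [F]
      rw [← map_mul]
      congr 1
      apply Subtype.ext
      exact kap_add 2 X Y
    have hF0 : F 0 = 1 := by
      have := hFadd 0 0
      rw [add_zero] at this
      exact left_eq_mul.1 this
    have hF2 : ∀ X, F X * F X = 1 := by
      intro X
      rw [← hFadd]
      have h1 : X + X = ((2 : ℕ) : ZMod (2 ^ 2)) • X := by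
        push_cast
        rw [two_smul]
      simp only [F]
      have h2 : (⟨kap 2 (X + X), kap_mem 2 (X + X)⟩ : KK 2) = 1 := by
        apply Subtype.ext
        change kap 2 (X + X) = 1
        rw [h1]
        exact kap_eq_one 2 X
      rw [h2, map_one]
    have hFpm : ∀ X, F X = 1 ∨ F X = -1 := by
      intro X
      have h1 : ((F X : ℂˣ) : ℂ) * ((F X : ℂˣ) : ℂ) = 1 := by
        rw [← Units.val_mul, hF2, Units.val_one]
      rcases mul_self_eq_one_iff.1 h1 with h | h
      · left; exact Units.ext h
      · right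
        apply Units.ext
        rw [h]
        simp
    -- the sign character of `Z/4`
    let e : ZMod (2 ^ 2) → ℂˣ := fun a => (-1) ^ a.val
    have he_add : ∀ a b, e (a + b) = e a * e b := by
      intro a b
      have hab : ∀ a b : ZMod (2 ^ 2), (a + b).val % 2 = (a.val + b.val) % 2 := by decide
      simp only [e]
      rw [← pow_add]
      apply Units.ext
      rw [Units.val_pow_eq_pow_val, Units.val_pow_eq_pow_val, Units.val_neg, Units.val_one,
        neg_one_pow_eq_pow_mod_two, neg_one_pow_eq_pow_mod_two (a.val + b.val), hab]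
    have he0 : e 0 = 1 := by simp [e]
    have he1 : e 1 = -1 := by
      have : (1 : ZMod (2 ^ 2)).val = 1 := rfl
      simp only [e, this, pow_one]
    have he2 : ∀ a, e (2 * a) = 1 := by
      intro a
      rw [two_mul, he_add]
      simp only [e]
      rw [← pow_add, ← two_mul, pow_mul]
      simp
    -- the matrix `β`
    have hb : ∀ i j : Fin 3, ∃ c : ZMod (2 ^ 2), e c = F (Matrix.single i j 1) := by
      intro i j
      rcases hFpm (Matrix.single i j 1) with h | h
      · exact ⟨0, by rw [h, he0]⟩
      · exact ⟨1, by rw [h, he1]⟩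
    choose c hc using hb
    let β : Matrix (Fin 3) (Fin 3) (ZMod (2 ^ 2)) := Matrix.of fun i j => c j i
    have hFs : ∀ (i j : Fin 3) (a : ZMod (2 ^ 2)), F (Matrix.single i j a) = e (c i j * a) := by
      intro i j a
      have h1 : ∀ n : ℕ, F (Matrix.single i j (n : ZMod (2 ^ 2))) = e (c i j * n) := by
        intro n
        induction n with
        | zero => simp [hF0, he0]
        | succ n ih =>
          rw [Nat.cast_succ, Matrix.single_add, hFadd, ih, mul_add, he_add, mul_one, hc]
      have h2 := h1 a.val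
      rwa [ZMod.natCast_zmod_val] at h2
    have hFsum : ∀ (s : Finset (Fin 3 × Fin 3)) (f : Fin 3 × Fin 3 → Matrix (Fin 3) (Fin 3) (ZMod (2 ^ 2))),
        F (∑ x ∈ s, f x) = ∏ x ∈ s, F (f x) := by
      intro s f
      induction s using Finset.cons_induction with
      | empty => simp [hF0]
      | cons a s ha ih => rw [Finset.sum_cons, Finset.prod_cons, hFadd, ih]
    have hesum : ∀ (s : Finset (Fin 3 × Fin 3)) (f : Fin 3 × Fin 3 → ZMod (2 ^ 2)),
        e (∑ x ∈ s, f x) = ∏ x ∈ s, e (f x) := by
      intro s f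
      induction s using Finset.cons_induction with
      | empty => simp [he0]
      | cons a s ha ih => rw [Finset.sum_cons, Finset.prod_cons, he_add, ih]
    have hFtr : ∀ X, F X = e ((β * X).trace) := by
      intro X
      have h1 : X = ∑ x : Fin 3 × Fin 3, Matrix.single x.1 x.2 (X x.1 x.2) := by
        rw [Fintype.sum_prod_type]
        exact Matrix.matrix_eq_sum_single X
      have h2 : (β * X).trace = ∑ x : Fin 3 × Fin 3, c x.1 x.2 * X x.1 x.2 := by
        rw [Matrix.trace, Fintype.sum_prod_type, Finset.sum_comm]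
        apply Finset.sum_congr rfl
        intro i _
        rw [Matrix.diag_apply, Matrix.mul_apply]
        rfl
      rw [h2, hesum]
      conv_lhs => rw [h1]
      rw [hFsum]
      apply Finset.prod_congr rfl
      intro x _
      exact hFs _ _ _
    -- the commuting element
    obtain ⟨zb, hz1, hz2⟩ := exists_commuting ((rd 2).mapMatrix β)
    obtain ⟨z, hz⟩ := red_surj 2 zb
    refine ⟨z, ?_, ?_⟩
    · intro hcon
      apply hz1
      rw [← hz]
      exact hcon
    · rintro ⟨k, hk⟩
      obtain ⟨X, rfl⟩ := exists_kap 2 k hk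
      have h1 : (⟨z⁻¹ * kap 2 X * z, by simpa using (inferInstance : (KK 2).Normal).conj_mem _ hk z⁻¹⟩
          : KK 2) = ⟨kap 2 (z⁻¹.val * X * z.val), kap_mem 2 _⟩ := by
        apply Subtype.ext
        exact kap_conj 2 z X
      change ψ ⟨z⁻¹ * kap 2 X * z, _⟩ = F X
      rw [h1]
      change F (z⁻¹.val * X * z.val) = F X
      rw [hFtr, hFtr]
      have h2 : (β * (z⁻¹.val * X * z.val)).trace = (z.val * β * z⁻¹.val * X).trace := by
        rw [← mul_assoc, ← mul_assoc, Matrix.trace_mul_comm, ← mul_assoc, ← mul_assoc]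
      have h3 : ∀ i j, rd 2 ((z.val * β * z⁻¹.val - β) i j) = 0 := by
        intro i j
        have h4 : (rd 2).mapMatrix (z.val * β * z⁻¹.val - β) = 0 := by
          have h5 : z.val * β * z⁻¹.val - β = (z.val * β - β * z.val) * z⁻¹.val := by
            rw [sub_mul, mul_assoc β, ← Units.val_mul, mul_inv_cancel, Units.val_one, mul_one]
          rw [h5, map_mul, map_sub, map_mul, map_mul]
          have h6 : (rd 2).mapMatrix z.val = zb.val := by
            rw [← hz]; rfl
          rw [h6, hz2, sub_self, zero_mul]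
        exact congrFun (congrFun h4 i) j
      choose Y hY using fun i j => exists_of_rd 2 _ (h3 i j)
      have h7 : z.val * β * z⁻¹.val = β + (2 : ZMod (2 ^ 2)) • Matrix.of Y := by
        ext i j
        rw [Matrix.add_apply, Matrix.smul_apply, Matrix.of_apply, smul_eq_mul]
        have := hY i j
        have h22 : ((2 : ℕ) : ZMod (2 ^ 2)) = 2 := rfl
        rw [Matrix.sub_apply, h22] at this
        rw [← this]
        ring
      rw [h2, h7, add_mul, Matrix.trace_add, he_add, Matrix.smul_mul, Matrix.trace_smul, smul_eq_mul,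
        he2, mul_one]

end Pool.Agent.W2helper33.Onn
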